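import Pool.Agent.helper68.AM.Spec

/-!
Project AM (MP_d52931_gt), module BL: bilinear sum.
-/

set_option autoImplicit false

namespace AM

open Finset

theorem BL_ee_norm (t : ℝ) : ‖ee t‖ = 1 := by
  unfold ee
  exact Complex.norm_exp_ofReal_mul_I _

theorem BL_ee_conj (t : ℝ) : (starRingEnd ℂ) (ee t) = ee (-t) := by
  unfold ee
  rw [← Complex.exp_conj, map_mul, Complex.conj_ofReal, Complex.conj_I]
  push_cast
  ring_nf

theorem BL_ee_mul (s t : ℝ) : ee s * ee t = ee (s + t) := by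
  unfold ee
  rw [← Complex.exp_add]
  push_cast
  ring_nf

/-- the summand for one prime, extended by zero -/
noncomputable def BLg (Y : ℝ) (N1 N2 p m : ℕ) : ℂ :=
  if N1 < p * m ∧ p * m ≤ N2 then ee (Y / ((p * m : ℕ) : ℝ)) else 0

theorem BLg_norm_le (Y : ℝ) (N1 N2 p m : ℕ) : ‖BLg Y N1 N2 p m‖ ≤ 1 := by
  unfold BLg
  split_ifs
  · rw [BL_ee_norm]
  · simp

theorem BL_pair (hEM : EM_stmt) {D Y : ℝ} {P N1 N2 p q : ℕ} (hD : 1 ≤ D) (hP : 1 ≤ P) (hY : 0 < Y)
    (hYP : 8 * Y * P ≤ D ^ 2) (hN1 : D ≤ (N1 : ℝ) + 1) (hN2 : (N2 : ℝ) ≤ 2 * D)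
    (hp : P < p) (hpq : p < q) (hq : q ≤ 2 * P) :
    ‖∑ m ∈ Icc 1 (N2 / P), BLg Y N1 N2 p m * (starRingEnd ℂ) (BLg Y N1 N2 q m)‖ ≤
      4 * D ^ 2 / Y * (1 / ((q - p : ℕ) : ℝ)) := by
  have hp0 : 0 < p := by omega
  have hq0 : 0 < q := by omega
  have hPR : (1 : ℝ) ≤ P := by exact_mod_cast hP
  have hpR : (P : ℝ) + 1 ≤ p := by exact_mod_cast hp
  have hpqR : (p : ℝ) + 1 ≤ q := by exact_mod_cast hpq
  have hqR : (q : ℝ) ≤ 2 * P := by exact_mod_cast hq
  have hsub : ((q - p : ℕ) : ℝ) = (q : ℝ) - p := by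
    rw [Nat.cast_sub hpq.le]
  rw [hsub]
  set α : ℝ := Y * ((q : ℝ) - p) / ((p : ℝ) * q) with hα
  have hp0R : (0 : ℝ) < p := by exact_mod_cast hp0
  have hq0R : (0 : ℝ) < q := by exact_mod_cast hq0
  have hd0 : (0 : ℝ) < (q : ℝ) - p := by linarith
  have hα0 : 0 < α := by positivity
  have hterm : ∀ m ∈ Icc 1 (N2 / P), BLg Y N1 N2 p m * (starRingEnd ℂ) (BLg Y N1 N2 q m) =
      if m ∈ Icc (N1 / p + 1) (N2 / q) then ee (α / m) else 0 := by
    intro m hm
    have hm1 : 1 ≤ m := (mem_Icc.1 hm).1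
    have hm0 : (0 : ℝ) < m := by exact_mod_cast hm1
    have hc1 : (N1 / p + 1 ≤ m) ↔ N1 < p * m := by
      rw [Nat.succ_le_iff, Nat.div_lt_iff_lt_mul hp0, mul_comm]
    have hc2 : (m ≤ N2 / q) ↔ q * m ≤ N2 := by
      rw [Nat.le_div_iff_mul_le hq0, mul_comm]
    have hle : p * m ≤ q * m := Nat.mul_le_mul_right m hpq.le
    by_cases hA : m ∈ Icc (N1 / p + 1) (N2 / q)
    · rw [if_pos hA]
      rw [mem_Icc, hc1, hc2] at hA
      unfold BLg
      rw [if_pos ⟨hA.1, hle.trans hA.2⟩, if_pos ⟨hA.1.trans_le hle, hA.2⟩, BL_ee_conj, BL_ee_mul]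
      congr 1
      rw [hα]
      push_cast
      field_simp
      ring
    · rw [if_neg hA]
      rw [mem_Icc, hc1, hc2] at hA
      unfold BLg
      by_cases h1 : N1 < p * m
      · have h2 : ¬ (q * m ≤ N2) := fun h => hA ⟨h1, h⟩
        rw [if_neg (fun h : N1 < q * m ∧ q * m ≤ N2 => h2 h.2)]
        simp
      · rw [if_neg (fun h : N1 < p * m ∧ p * m ≤ N2 => h1 h.1)]
        simp
  rw [sum_congr rfl hterm, ← sum_filter]
  have hset : (Icc 1 (N2 / P)).filter (fun m => m ∈ Icc (N1 / p + 1) (N2 / q)) =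
      Icc (N1 / p + 1) (N2 / q) := by
    ext m
    simp only [mem_filter, mem_Icc]
    constructor
    · exact fun h => h.2
    · intro h
      refine ⟨⟨(Nat.succ_le_succ (Nat.zero_le _)).trans h.1, h.2.trans ?_⟩, h⟩
      exact Nat.div_le_div_left (by omega) (by omega)
  rw [hset]
  by_cases hM : N1 / p + 1 ≤ N2 / q
  · -- the range is not empty
    have hM1 : D ≤ (p : ℝ) * ((N1 / p + 1 : ℕ) : ℝ) := by
      have : N1 + 1 ≤ p * (N1 / p + 1) := Nat.lt_mul_div_succ N1 hp0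
      have h2 : ((N1 + 1 : ℕ) : ℝ) ≤ ((p * (N1 / p + 1) : ℕ) : ℝ) := by exact_mod_cast this
      push_cast at h2 ⊢
      linarith
    have hM2 : (q : ℝ) * ((N2 / q : ℕ) : ℝ) ≤ 2 * D := by
      have : q * (N2 / q) ≤ N2 := Nat.mul_div_le N2 q
      have h2 : ((q * (N2 / q) : ℕ) : ℝ) ≤ (N2 : ℝ) := by exact_mod_cast this
      push_cast at h2
      linarith
    set M1 : ℕ := N1 / p + 1 with hM1d
    set M2 : ℕ := N2 / q with hM2d
    have hM1p : 1 ≤ M1 := Nat.succ_le_succ (Nat.zero_le _)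
    have hM10 : (0 : ℝ) < M1 := by exact_mod_cast hM1p
    have hM20 : (0 : ℝ) ≤ M2 := Nat.cast_nonneg _
    have hα1 : α ≤ (M1 : ℝ) ^ 2 / 2 := by
      have h1 : α ≤ Y / P := by
        rw [hα, div_le_div_iff₀ (by positivity) (by positivity)]
        have h3 : ((q : ℝ) - p) * P ≤ p * q := by
          have h4 : ((q : ℝ) - p) ≤ p := by linarith
          have h5 : (P : ℝ) ≤ q := by linarith
          exact mul_le_mul h4 h5 (by positivity) hp0R.le
        calc Y * ((q : ℝ) - p) * P = Y * (((q : ℝ) - p) * P) := by ring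
          _ ≤ Y * (p * q) := mul_le_mul_of_nonneg_left h3 hY.le
      refine h1.trans ?_
      rw [div_le_div_iff₀ (by positivity) (by norm_num)]
      have h6 : D ≤ 2 * P * M1 := by
        refine hM1.trans ?_
        have : (p : ℝ) ≤ 2 * P := by linarith
        exact mul_le_mul_of_nonneg_right this hM10.le
      have h7 : D ^ 2 ≤ (2 * P * M1) ^ 2 := pow_le_pow_left₀ (by linarith) h6 2
      have h8 : 8 * Y * P ≤ 4 * P ^ 2 * M1 ^ 2 := by nlinarith
      have h9 : 0 < (P : ℝ) := by linarith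
      have h10 : Y * 2 * P ≤ (M1 : ℝ) ^ 2 * P * P := by nlinarith
      exact le_of_mul_le_mul_right h10 h9
    have hE := hEM α M1 M2 hα0 hM1p hM hα1
    refine hE.trans ?_
    rw [div_le_iff₀ hα0, hα]
    have h11 : (M2 : ℝ) ^ 2 * (q : ℝ) ^ 2 ≤ 4 * D ^ 2 := by
      have : ((q : ℝ) * M2) ^ 2 ≤ (2 * D) ^ 2 := pow_le_pow_left₀ (by positivity) hM2 2
      nlinarith
    have h12 : 4 * D ^ 2 / Y * (1 / ((q : ℝ) - p)) * (Y * ((q : ℝ) - p) / ((p : ℝ) * q)) =
        4 * D ^ 2 / (p * q) := by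
      field_simp
    rw [h12, le_div_iff₀ (by positivity)]
    have h13 : (M2 : ℝ) ^ 2 * (p * q) ≤ (M2 : ℝ) ^ 2 * (q : ℝ) ^ 2 := by
      apply mul_le_mul_of_nonneg_left _ (by positivity)
      nlinarith
    linarith
  · rw [Icc_eq_empty hM, sum_empty, norm_zero]
    positivity

theorem BL_harm (P : ℕ) : ∑ k ∈ Icc 1 P, 1 / (k : ℝ) ≤ 1 + Real.log P := by
  have h := harmonic_le_one_add_log P
  rw [harmonic_eq_sum_Icc] at h
  push_cast at h
  simpa [one_div] using h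

/-- the sum over all larger elements -/
theorem BL_right {P : ℕ} {T : Finset ℕ} (hT : ∀ p ∈ T, P < p ∧ p ≤ 2 * P) (p : ℕ) (hp : p ∈ T) :
    ∑ q ∈ T.filter (fun q => p < q), 1 / ((q - p : ℕ) : ℝ) ≤ 1 + Real.log P := by
  refine le_trans ?_ (BL_harm P)
  have hinj : Set.InjOn (fun q : ℕ => q - p) (T.filter (fun q => p < q) : Finset ℕ) := by
    intro a ha b hb hab
    simp only [coe_filter, Set.mem_ofPred_eq] at ha hb
    simp only at hab
    omega
  rw [← sum_image (f := fun k : ℕ => 1 / (k : ℝ)) hinj]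
  apply sum_le_sum_of_subset_of_nonneg
  · intro k hk
    obtain ⟨q, hq, rfl⟩ := mem_image.1 hk
    obtain ⟨hqT, hpq⟩ := mem_filter.1 hq
    have := hT q hqT
    have := hT p hp
    exact mem_Icc.2 ⟨by omega, by omega⟩
  · intro k _ _
    positivity

theorem BL_left {P : ℕ} {T : Finset ℕ} (hT : ∀ p ∈ T, P < p ∧ p ≤ 2 * P) (p : ℕ) (hp : p ∈ T) :
    ∑ q ∈ T.filter (fun q => q < p), 1 / ((p - q : ℕ) : ℝ) ≤ 1 + Real.log P := by
  refine le_trans ?_ (BL_harm P)
  have hinj : Set.InjOn (fun q : ℕ => p - q) (T.filter (fun q => q < p) : Finset ℕ) := by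
    intro a ha b hb hab
    simp only [coe_filter, Set.mem_ofPred_eq] at ha hb
    simp only at hab
    omega
  rw [← sum_image (f := fun k : ℕ => 1 / (k : ℝ)) hinj]
  apply sum_le_sum_of_subset_of_nonneg
  · intro k hk
    obtain ⟨q, hq, rfl⟩ := mem_image.1 hk
    obtain ⟨hqT, hpq⟩ := mem_filter.1 hq
    have := hT q hqT
    have := hT p hp
    exact mem_Icc.2 ⟨by omega, by omega⟩
  · intro k _ _
    positivity

theorem BL (hEM : EM_stmt) : BL_stmt := by
  intro D Y P N1 N2 T b hD hP hY hYP hN1 hN2 hT hb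
  have hPR : (1 : ℝ) ≤ P := by exact_mod_cast hP
  have hP0 : (0 : ℝ) < P := by linarith
  set K : ℕ := N2 / P with hK
  set g : ℕ → ℕ → ℂ := fun p m => BLg Y N1 N2 p m with hg
  -- rewrite the sum
  have hS : (∑ p ∈ T, ∑ m ∈ (range (N2 + 1)).filter (fun m => N1 < p * m ∧ p * m ≤ N2),
      ((b m : ℝ) : ℂ) * ee (Y / ((p * m : ℕ) : ℝ))) =
      ∑ m ∈ Icc 1 K, ((b m : ℝ) : ℂ) * ∑ p ∈ T, g p m := by
    have h1 : ∀ p ∈ T, (∑ m ∈ (range (N2 + 1)).filter (fun m => N1 < p * m ∧ p * m ≤ N2),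
        ((b m : ℝ) : ℂ) * ee (Y / ((p * m : ℕ) : ℝ))) =
        ∑ m ∈ Icc 1 K, ((b m : ℝ) : ℂ) * g p m := by
      intro p hp
      have hpP := (hT p hp).1
      have hsub : (range (N2 + 1)).filter (fun m => N1 < p * m ∧ p * m ≤ N2) =
          (Icc 1 K).filter (fun m => N1 < p * m ∧ p * m ≤ N2) := by
        ext m
        simp only [mem_filter, mem_range, mem_Icc]
        constructor
        · rintro ⟨-, h2, h3⟩
          refine ⟨⟨?_, ?_⟩, h2, h3⟩
          · rcases Nat.eq_zero_or_pos m with h0 | h0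
            · subst h0; simp at h2
            · exact h0
          · rw [hK, Nat.le_div_iff_mul_le (by omega), mul_comm]
            exact (Nat.mul_le_mul_right m hpP.le).trans h3
        · rintro ⟨⟨h1, -⟩, h2, h3⟩
          refine ⟨?_, h2, h3⟩
          have : m ≤ p * m := Nat.le_mul_of_pos_left m (by omega)
          omega
      rw [hsub, sum_filter]
      refine sum_congr rfl fun m _ => ?_
      simp only [hg, BLg]
      split_ifs <;> simp
    rw [sum_congr rfl h1, sum_comm]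
    refine sum_congr rfl fun m _ => ?_
    rw [mul_sum]
  rw [hS]
  set G : ℕ → ℂ := fun m => ∑ p ∈ T, g p m with hG
  -- Cauchy-Schwarz
  have hCS : ‖∑ m ∈ Icc 1 K, ((b m : ℝ) : ℂ) * G m‖ ^ 2 ≤ (K : ℝ) * ∑ m ∈ Icc 1 K, ‖G m‖ ^ 2 := by
    have h1 : ‖∑ m ∈ Icc 1 K, ((b m : ℝ) : ℂ) * G m‖ ≤ ∑ m ∈ Icc 1 K, ‖G m‖ := by
      refine (norm_sum_le _ _).trans (sum_le_sum fun m _ => ?_)
      rw [norm_mul, Complex.norm_real, Real.norm_eq_abs]
      have := mul_le_mul_of_nonneg_right (hb m) (norm_nonneg (G m))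
      linarith
    have h2 := pow_le_pow_left₀ (norm_nonneg _) h1 2
    refine h2.trans ?_
    have h3 := sq_sum_le_card_mul_sum_sq (s := Icc 1 K) (f := fun m => ‖G m‖)
    simpa using h3
  -- expand the square
  have hsq : (∑ m ∈ Icc 1 K, ‖G m‖ ^ 2) ≤
      ∑ p ∈ T, ∑ q ∈ T, ‖∑ m ∈ Icc 1 K, g p m * (starRingEnd ℂ) (g q m)‖ := by
    have h1 : ((∑ m ∈ Icc 1 K, ‖G m‖ ^ 2 : ℝ) : ℂ) =
        ∑ p ∈ T, ∑ q ∈ T, ∑ m ∈ Icc 1 K, g p m * (starRingEnd ℂ) (g q m) := by
      push_cast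
      have h2 : ∀ m ∈ Icc 1 K, ((‖G m‖ : ℝ) : ℂ) ^ 2 =
          ∑ p ∈ T, ∑ q ∈ T, g p m * (starRingEnd ℂ) (g q m) := by
        intro m _
        rw [← Complex.mul_conj', hG, map_sum, sum_mul_sum]
      rw [sum_congr rfl h2, sum_comm]
      refine sum_congr rfl fun p _ => ?_
      rw [sum_comm]
    have h3 : (∑ m ∈ Icc 1 K, ‖G m‖ ^ 2) =
        ‖((∑ m ∈ Icc 1 K, ‖G m‖ ^ 2 : ℝ) : ℂ)‖ := by
      rw [Complex.norm_real, Real.norm_eq_abs, abs_of_nonneg (sum_nonneg fun m _ => by positivity)]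
    rw [h3, h1]
    refine (norm_sum_le _ _).trans (sum_le_sum fun p _ => ?_)
    exact norm_sum_le _ _
  have hKR : (K : ℝ) ≤ 2 * D / P := by
    rw [le_div_iff₀ hP0]
    have : K * P ≤ N2 := Nat.div_mul_le_self N2 P
    have h2 : ((K * P : ℕ) : ℝ) ≤ (N2 : ℝ) := by exact_mod_cast this
    push_cast at h2
    linarith
  have hcard : (T.card : ℝ) ≤ P := by
    have h1 : T ⊆ Ioc P (2 * P) := fun p hp => mem_Ioc.2 (hT p hp)
    have h2 := card_le_card h1
    rw [Nat.card_Ioc] at h2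
    exact_mod_cast (by omega : T.card ≤ P)
  have hlog : 0 ≤ Real.log P := Real.log_nonneg hPR
  -- rows
  have hrow : ∀ p ∈ T, (∑ q ∈ T, ‖∑ m ∈ Icc 1 K, g p m * (starRingEnd ℂ) (g q m)‖) ≤
      K + 4 * D ^ 2 / Y * (2 * (1 + Real.log P)) := by
    intro p hp
    have hsplit : ∀ q ∈ T, ‖∑ m ∈ Icc 1 K, g p m * (starRingEnd ℂ) (g q m)‖ ≤
        (if q = p then (K : ℝ) else 0) + ((if p < q then 4 * D ^ 2 / Y * (1 / ((q - p : ℕ) : ℝ)) else 0) +
          (if q < p then 4 * D ^ 2 / Y * (1 / ((p - q : ℕ) : ℝ)) else 0)) := by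
      intro q hq
      rcases lt_trichotomy q p with h | h | h
      · rw [if_neg h.ne, if_neg (not_lt.2 h.le), if_pos h, zero_add, zero_add]
        have h2 := BL_pair hEM hD hP hY hYP hN1 hN2 (hT q hq).1 h (hT p hp).2
        rw [← Complex.norm_conj, map_sum] at h2
        refine le_trans (le_of_eq ?_) h2
        congr 1
        refine sum_congr rfl fun m _ => ?_
        rw [map_mul, Complex.conj_conj, mul_comm]
      · subst h
        rw [if_pos rfl, if_neg (lt_irrefl _), add_zero, add_zero]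
        refine (norm_sum_le _ _).trans ?_
        calc ∑ m ∈ Icc 1 K, ‖g q m * (starRingEnd ℂ) (g q m)‖ ≤ ∑ _m ∈ Icc 1 K, (1 : ℝ) := by
              refine sum_le_sum fun m _ => ?_
              rw [norm_mul, Complex.norm_conj]
              have h3 := BLg_norm_le Y N1 N2 q m
              exact mul_le_one₀ h3 (norm_nonneg _) h3
          _ = K := by simp
      · rw [if_neg h.ne', if_pos h, if_neg (not_lt.2 h.le), zero_add, add_zero]
        exact BL_pair hEM hD hP hY hYP hN1 hN2 (hT p hp).1 h (hT q hq).2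
    refine (sum_le_sum hsplit).trans ?_
    rw [sum_add_distrib, sum_add_distrib, ← sum_filter, ← sum_filter, ← sum_filter, ← mul_sum,
      ← mul_sum]
    have h1 : ∑ _q ∈ T.filter (fun q => q = p), (K : ℝ) = K := by
      rw [filter_eq' T p, if_pos hp, sum_singleton]
    have h2 := BL_right hT p hp
    have h3 := BL_left hT p hp
    have h4 : 0 ≤ 4 * D ^ 2 / Y := by positivity
    rw [h1]
    have h5 := mul_le_mul_of_nonneg_left h2 h4
    have h6 := mul_le_mul_of_nonneg_left h3 h4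
    linarith
  have htot : (∑ m ∈ Icc 1 K, ‖G m‖ ^ 2) ≤
      P * (2 * D / P + 4 * D ^ 2 / Y * (2 * (1 + Real.log P))) := by
    refine hsq.trans ((sum_le_sum hrow).trans ?_)
    rw [sum_const, nsmul_eq_mul]
    have h1 : 0 ≤ 4 * D ^ 2 / Y * (2 * (1 + Real.log P)) := by positivity
    apply mul_le_mul hcard (by linarith) (by positivity) hP0.le
  have hD0 : 0 < D := by linarith
  have hfin : (K : ℝ) * (∑ m ∈ Icc 1 K, ‖G m‖ ^ 2) ≤
      2 * D / P * (P * (2 * D / P + 4 * D ^ 2 / Y * (2 * (1 + Real.log P)))) :=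
    mul_le_mul hKR htot (sum_nonneg fun m _ => by positivity) (by positivity)
  refine hCS.trans (hfin.trans (le_of_eq ?_))
  field_simp
  ring

end AM
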